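import Mathlib
import Pool.Agent.Y196.Sp.Fi

/-! # Polytopes of derivatives: bounds for the degree of a parametrization -/

set_option autoImplicit false

namespace Pool.Agent.X159.DP

open MvPolynomial Pool.Agent.TH314.PD Pool.Agent.Y196.Sp MeasureTheory Pointwise

noncomputable section

variable {n N d : ℕ}

theorem ind_of {w : Option (Fin n) → ℂ} {c : Option (Fin n) → Fin n → ℂ}
    (h : LinearIndependent ℂ fun i => ((w i, c i) : ℂ × (Fin n → ℂ))) : Ind w c := by
  classical
  unfold Ind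
  intro hdet
  obtain ⟨v, hv0, hv⟩ := Matrix.exists_vecMul_eq_zero_iff.2 hdet
  apply hv0
  rw [Fintype.linearIndependent_iff] at h
  funext i
  refine h v ?_ i
  have h1 : ∀ j, ∑ i, v i * Option.elim j (w i) (c i) = 0 := fun j => congrFun hv j
  rw [Prod.ext_iff]
  constructor
  · rw [Prod.fst_sum, Prod.fst_zero]
    exact h1 none
  · rw [Prod.snd_sum, Prod.snd_zero]
    funext l
    rw [Finset.sum_apply]
    exact h1 (some l)

/-- the bound with integral shifts -/
theorem shift_bound (hd : 2 ≤ d) (F : MvPolynomial (Fin (n + 2)) ℂ) (hF : F.IsHomogeneous d)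
    (hsm : ∀ z : Fin (n + 2) → ℂ, (∀ i, eval z (pderiv i F) = 0) → z = 0)
    (w : Option (Fin n) → ℂ) (c : Option (Fin n) → Fin n → ℂ) (s : Option (Fin n) → Fin n → ℤ)
    (hI : Ind w c) {P : Set (Fin n → ℝ)} (hPc : Convex ℝ P) (hP : IsCompact P)
    (A : Set (Fin n →₀ ℕ))
    (hA : ∀ i, ∀ a ∈ A, w i + ∑ l, c i l * (a l : ℂ) ≠ 0 → (fun l => (a l : ℝ) + s i l) ∈ P)
    (G : Fin (n + 2) → MvPolynomial (Fin n) ℂ)
    (hG : ∀ i, ∀ a ∈ (G i).support, a ∈ A) (hFG : aeval G F = 0)
    (hdom : ∀ q (H : MvPolynomial (Fin (n + 2)) ℂ), H.IsHomogeneous q → aeval G H = 0 → F ∣ H) :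
    FiniteDimensional (ratioField fun i =>
        algebraMap (MvPolynomial (Fin n) ℂ) (FractionRing (MvPolynomial (Fin n) ℂ)) (G i))
        (FractionRing (MvPolynomial (Fin n) ℂ)) ∧
      (Module.finrank (ratioField fun i =>
        algebraMap (MvPolynomial (Fin n) ℂ) (FractionRing (MvPolynomial (Fin n) ℂ)) (G i))
        (FractionRing (MvPolynomial (Fin n) ℂ)) : ℝ) * (d * (d - 1) ^ n : ℕ) ≤
        (n + 1).factorial * (volume P).toReal := by
  classical
  set m : ℕ := ∑ i, ∑ l, (s i l).natAbs with hm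
  have hsm' : ∀ i l, 0 ≤ s i l + m := by
    intro i l
    have h1 : (s i l).natAbs ≤ m :=
      (Finset.single_le_sum (f := fun l => (s i l).natAbs) (fun _ _ => Nat.zero_le _)
        (Finset.mem_univ l)).trans (Finset.single_le_sum (f := fun i => ∑ l, (s i l).natAbs)
          (fun _ _ => Nat.zero_le _) (Finset.mem_univ i))
    omega
  let v : Fin n → ℝ := fun _ => m
  let s' : Option (Fin n) → (Fin n →₀ ℕ) := fun i =>
    Finsupp.equivFunOnFinite.symm fun l => (s i l + m).toNat
  have h1 := bound_sp hd F hF hsm w c s' hI (P := v +ᵥ P) (hPc.vadd v)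
    (hP.vadd v) A (fun i a ha hne => by
      rw [Set.mem_vadd_set]
      refine ⟨_, hA i a ha hne, ?_⟩
      funext l
      rw [Pi.vadd_apply', vadd_eq_add]
      change (m : ℝ) + ((a l : ℝ) + s i l) = (((a + s' i) l : ℕ) : ℝ)
      have h2 : (((s i l + m).toNat : ℕ) : ℝ) = (s i l : ℝ) + m := by
        have h3 : (((s i l + m).toNat : ℕ) : ℤ) = s i l + m := Int.toNat_of_nonneg (hsm' i l)
        have h4 : (((s i l + m).toNat : ℕ) : ℝ) = (((s i l + m).toNat : ℤ) : ℝ) := by
          norm_cast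
        rw [h4, h3]
        push_cast
        ring
      have h5 : (((a + s' i) l : ℕ) : ℝ) = (a l : ℝ) + (((s i l + m).toNat : ℕ) : ℝ) := by
        rw [Finsupp.add_apply, Nat.cast_add]
        rfl
      rw [h5, h2]
      ring) G (fun i a ha => hG i a ha) hFG hdom
  rw [measure_vadd] at h1
  exact h1

end

end Pool.Agent.X159.DP
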