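import Pool.Agent.X159.DP.Poly

/-! # Weighted degrees and groups of variables: the bounds -/

set_option autoImplicit false

namespace Pool.Agent.X159.DP

open MvPolynomial Pool.Agent.TH314.PD Pool.Agent.Y196.Sp MeasureTheory Pointwise

noncomputable section

variable {n N d : ℕ}

/-- the affine function `e0 + ∑ e_l a_l` with `e0 ≠ 0` and the functions `a_l` -/
def wF (e0 : ℂ) : Option (Fin n) → ℂ := fun i => Option.elim i e0 fun _ => 0

def cF (e : Fin n → ℂ) : Option (Fin n) → Fin n → ℂ := fun i l =>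
  Option.elim i (e l) fun m => if m = l then 1 else 0

def sF (n : ℕ) : Option (Fin n) → Fin n → ℤ := fun i l =>
  Option.elim i 0 fun m => if m = l then -1 else 0

theorem indF {e0 : ℂ} (he : e0 ≠ 0) (e : Fin n → ℂ) : Ind (wF (n := n) e0) (cF e) := by
  classical
  unfold Ind
  intro hdet
  obtain ⟨v, hv0, hv⟩ := Matrix.exists_mulVec_eq_zero_iff.2 hdet
  apply hv0
  have h1 : ∀ i, wF e0 i * v none + ∑ l, cF e i l * v (some l) = 0 := by
    intro i
    have h2 := congrFun hv i
    unfold Matrix.mulVec dotProduct at h2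
    rw [Fintype.sum_option] at h2
    exact h2
  have h2 : ∀ m, v (some m) = 0 := by
    intro m
    have h3 := h1 (some m)
    have h4 : ∀ l, cF e (some m) l * v (some l) = if m = l then v (some l) else 0 := fun l => by
      change (if m = l then (1 : ℂ) else 0) * v (some l) = _
      split_ifs
      · rw [one_mul]
      · rw [zero_mul]
    have h5 : wF (n := n) e0 (some m) = 0 := rfl
    rw [Finset.sum_congr rfl fun l _ => h4 l, Finset.sum_ite_eq, if_pos (Finset.mem_univ _), h5,
      zero_mul, zero_add] at h3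
    exact h3
  have h3 := h1 none
  rw [Finset.sum_eq_zero fun l _ => by rw [h2 l, mul_zero], add_zero] at h3
  have h4 : wF (n := n) e0 none = e0 := rfl
  rw [h4] at h3
  have h5 : v none = 0 := (mul_eq_zero.1 h3).resolve_left he
  funext i
  cases i with
  | none => exact h5
  | some m => exact h2 m

theorem ph_some (e0 : ℂ) (e : Fin n → ℂ) (m : Fin n) (a : Fin n →₀ ℕ) :
    wF e0 (some m) + ∑ l, cF e (some m) l * (a l : ℂ) = a m := by
  classical
  have h4 : ∀ l, cF e (some m) l * (a l : ℂ) = if m = l then (a l : ℂ) else 0 := fun l => by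
    change (if m = l then (1 : ℂ) else 0) * (a l : ℂ) = _
    split_ifs
    · rw [one_mul]
    · rw [zero_mul]
  rw [Finset.sum_congr rfl fun l _ => h4 l, Finset.sum_ite_eq, if_pos (Finset.mem_univ _)]
  change (0 : ℂ) + _ = _
  rw [zero_add]

theorem sum_sF (a : Fin n →₀ ℕ) (m : Fin n) (S : Finset (Fin n)) (u : Fin n → ℝ) :
    ∑ l ∈ S, u l * ((a l : ℝ) + sF n (some m) l) =
      ∑ l ∈ S, u l * (a l : ℝ) - if m ∈ S then u m else 0 := by
  classical
  have h1 : ∀ l, u l * ((a l : ℝ) + sF n (some m) l) =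
      u l * (a l : ℝ) - if m = l then u l else 0 := by
    intro l
    change u l * ((a l : ℝ) + ((if m = l then -1 else 0 : ℤ) : ℝ)) = _
    split_ifs
    · push_cast
      ring
    · push_cast
      ring
  rw [Finset.sum_congr rfl fun l _ => h1 l, Finset.sum_sub_distrib, Finset.sum_ite_eq]

theorem nonneg_sF (a : Fin n →₀ ℕ) {m : Fin n} (hm : 1 ≤ a m) (l : Fin n) :
    0 ≤ (a l : ℝ) + sF n (some m) l := by
  change 0 ≤ (a l : ℝ) + ((if m = l then -1 else 0 : ℤ) : ℝ)
  split_ifs with h
  · subst h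
    have : (1 : ℝ) ≤ a m := by exact_mod_cast hm
    push_cast
    linarith
  · push_cast
    positivity

/-- weighted degrees -/
theorem weight_bound (hd : 2 ≤ d) (F : MvPolynomial (Fin (n + 2)) ℂ) (hF : F.IsHomogeneous d)
    (hsm : ∀ z : Fin (n + 2) → ℂ, (∀ i, eval z (pderiv i F) = 0) → z = 0)
    (w : Fin n → ℕ) (hw : ∀ l, 1 ≤ w l) (k : ℕ)
    (G : Fin (n + 2) → MvPolynomial (Fin n) ℂ)
    (hG : ∀ i, ∀ a ∈ (G i).support, ∑ l, w l * a l ≤ k) (hFG : aeval G F = 0)
    (hdom : ∀ q (H : MvPolynomial (Fin (n + 2)) ℂ), H.IsHomogeneous q → aeval G H = 0 → F ∣ H) :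
    FiniteDimensional (ratioField fun i =>
        algebraMap (MvPolynomial (Fin n) ℂ) (FractionRing (MvPolynomial (Fin n) ℂ)) (G i))
        (FractionRing (MvPolynomial (Fin n) ℂ)) ∧
      Module.finrank (ratioField fun i =>
        algebraMap (MvPolynomial (Fin n) ℂ) (FractionRing (MvPolynomial (Fin n) ℂ)) (G i))
        (FractionRing (MvPolynomial (Fin n) ℂ)) * (d * (d - 1) ^ n) * ∏ l, w l ≤
        (n + 1) * (k - 1) ^ n := by
  classical
  -- reduce to `k ≥ 1`
  wlog hk : 1 ≤ k generalizing k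
  · have h0 : k = 0 := by omega
    subst h0
    exact this 1 (fun i a ha => (hG i a ha).trans (by omega)) le_rfl
  have hk0 : (k : ℂ) ≠ 0 := by
    have : k ≠ 0 := by omega
    exact_mod_cast this
  have hk1 : ((k - 1 : ℕ) : ℝ) = (k : ℝ) - 1 := by
    rw [Nat.cast_sub hk, Nat.cast_one]
  obtain ⟨h1, h2⟩ := shift_bound hd F hF hsm (wF (k : ℂ)) (cF fun l => -(w l : ℂ)) (sF n)
    (indF hk0 _) (wsimp_convex w ((k - 1 : ℕ) : ℝ)) (wsimp_compact hw _)
    {a | ∑ l, w l * a l ≤ k} (by
      intro i a ha hne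
      have hak : ∑ l, w l * a l ≤ k := ha
      cases i with
      | none =>
        have h3 : ∑ l, w l * a l ≠ k := by
          intro h4
          apply hne
          have h5 : ∀ l, cF (fun l => -(w l : ℂ)) none l * (a l : ℂ) = -((w l * a l : ℕ) : ℂ) :=
            fun l => by
              change -(w l : ℂ) * (a l : ℂ) = _
              push_cast
              ring
          rw [Finset.sum_congr rfl fun l _ => h5 l, Finset.sum_neg_distrib, ← Nat.cast_sum, h4]
          change (k : ℂ) + -(k : ℂ) = 0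
          ring
        have h4 : ∑ l, w l * a l ≤ k - 1 := by omega
        refine ⟨fun l => ?_, ?_⟩
        · change 0 ≤ (a l : ℝ) + ((0 : ℤ) : ℝ)
          push_cast
          positivity
        · have h5 : ∀ l, (w l : ℝ) * ((a l : ℝ) + ((sF n none l : ℤ) : ℝ)) =
              ((w l * a l : ℕ) : ℝ) := fun l => by
            change (w l : ℝ) * ((a l : ℝ) + ((0 : ℤ) : ℝ)) = _
            push_cast
            ring
          rw [Finset.sum_congr rfl fun l _ => h5 l, ← Nat.cast_sum]
          exact_mod_cast h4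
      | some m =>
        rw [ph_some] at hne
        have hm : 1 ≤ a m := by
          rcases Nat.eq_zero_or_pos (a m) with h | h
          · exact absurd (by rw [h]; exact Nat.cast_zero) hne
          · exact h
        refine ⟨fun l => nonneg_sF a hm l, ?_⟩
        rw [sum_sF a m Finset.univ fun l => (w l : ℝ), if_pos (Finset.mem_univ _), hk1]
        have h5 : ∑ l, (w l : ℝ) * (a l : ℝ) ≤ k := by exact_mod_cast hak
        have h6 : (1 : ℝ) ≤ w m := by exact_mod_cast hw m
        linarith) G (fun i a ha => hG i a ha) hFG hdom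
  refine ⟨h1, ?_⟩
  rw [wsimp_vol hw (Nat.cast_nonneg _)] at h2
  set δ := Module.finrank (ratioField fun i =>
        algebraMap (MvPolynomial (Fin n) ℂ) (FractionRing (MvPolynomial (Fin n) ℂ)) (G i))
        (FractionRing (MvPolynomial (Fin n) ℂ)) with hδ
  have hprod : (0 : ℝ) < ∏ l, (w l : ℝ) := Finset.prod_pos fun l _ => by
    have := hw l
    positivity
  have hfac : (0 : ℝ) < n.factorial := by positivity
  have h3 : ((n + 1).factorial : ℝ) * ((((k - 1 : ℕ) : ℝ)) ^ n / (n.factorial * ∏ l, (w l : ℝ))) =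
      ((n + 1) * ((k - 1 : ℕ) : ℝ) ^ n) / ∏ l, (w l : ℝ) := by
    rw [Nat.factorial_succ]
    push_cast
    field_simp
  rw [h3, le_div_iff₀ hprod] at h2
  exact_mod_cast h2

/-- groups of variables -/
theorem group_bound (hn : 1 ≤ n) (hd : 2 ≤ d) (F : MvPolynomial (Fin (n + 2)) ℂ)
    (hF : F.IsHomogeneous d)
    (hsm : ∀ z : Fin (n + 2) → ℂ, (∀ i, eval z (pderiv i F) = 0) → z = 0)
    {r : ℕ} (κ : Fin n → Fin r) (k : Fin r → ℕ) (hk : ∀ i, 1 ≤ k i)
    (G : Fin (n + 2) → MvPolynomial (Fin n) ℂ)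
    (hG : ∀ j, ∀ a ∈ (G j).support, ∀ i, ∑ l with κ l = i, a l ≤ k i) (hFG : aeval G F = 0)
    (hdom : ∀ q (H : MvPolynomial (Fin (n + 2)) ℂ), H.IsHomogeneous q → aeval G H = 0 → F ∣ H) :
    FiniteDimensional (ratioField fun i =>
        algebraMap (MvPolynomial (Fin n) ℂ) (FractionRing (MvPolynomial (Fin n) ℂ)) (G i))
        (FractionRing (MvPolynomial (Fin n) ℂ)) ∧
      (Module.finrank (ratioField fun i =>
        algebraMap (MvPolynomial (Fin n) ℂ) (FractionRing (MvPolynomial (Fin n) ℂ)) (G i))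
        (FractionRing (MvPolynomial (Fin n) ℂ)) : ℝ) * (d * (d - 1) ^ n : ℕ) ≤
        (n + 1).factorial * (volume (gpol κ k)).toReal := by
  classical
  let l0 : Fin n := ⟨0, hn⟩
  let i0 : Fin r := κ l0
  have hi0 : i0 ∈ Finset.univ.image κ := Finset.mem_image_of_mem _ (Finset.mem_univ l0)
  have hk0 : (k i0 : ℂ) ≠ 0 := by
    have h1 := hk i0
    have h2 : k i0 ≠ 0 := by omega
    exact_mod_cast h2
  have htot : ∀ a : Fin n →₀ ℕ, ∑ l, a l = ∑ i ∈ Finset.univ.image κ, ∑ l with κ l = i, a l := by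
    intro a
    rw [Finset.sum_fiberwise_of_maps_to (g := κ) (fun l _ =>
      Finset.mem_image_of_mem _ (Finset.mem_univ l))]
  refine shift_bound hd F hF hsm (wF (k i0 : ℂ)) (cF fun l => if κ l = i0 then -1 else 0) (sF n)
    (indF hk0 _) (gpol_convex κ k) (gpol_compact κ k)
    {a | ∀ i, ∑ l with κ l = i, a l ≤ k i} ?_ G (fun i a ha => hG i a ha) hFG hdom
  intro i a ha hne
  have hak : ∀ i, ∑ l with κ l = i, a l ≤ k i := ha
  have hle : ∑ l, a l ≤ ∑ i ∈ Finset.univ.image κ, k i := by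
    rw [htot]
    exact Finset.sum_le_sum fun i _ => hak i
  cases i with
  | none =>
    have h0 : ∀ l, (a l : ℝ) + ((sF n none l : ℤ) : ℝ) = ((a l : ℕ) : ℝ) := fun l => by
      change (a l : ℝ) + ((0 : ℤ) : ℝ) = _
      push_cast
      ring
    have h3 : ∑ l with κ l = i0, a l ≠ k i0 := by
      intro h4
      apply hne
      have h5 : ∀ l, cF (fun l => if κ l = i0 then (-1 : ℂ) else 0) none l * (a l : ℂ) =
          if κ l = i0 then -(a l : ℂ) else 0 :=
        fun l => by
          change (if κ l = i0 then (-1 : ℂ) else 0) * (a l : ℂ) = _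
          split_ifs
          · ring
          · ring
      rw [Finset.sum_congr rfl fun l _ => h5 l, ← Finset.sum_filter, Finset.sum_neg_distrib,
        ← Nat.cast_sum, h4]
      change (k i0 : ℂ) + -(k i0 : ℂ) = 0
      ring
    have h4 : ∑ l, a l < ∑ i ∈ Finset.univ.image κ, k i := by
      rw [htot]
      exact Finset.sum_lt_sum (fun i _ => hak i) ⟨i0, hi0, lt_of_le_of_ne (hak i0) h3⟩
    refine ⟨fun l => ?_, fun i => ?_, ?_⟩
    · change 0 ≤ (a l : ℝ) + ((sF n none l : ℤ) : ℝ)
      rw [h0]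
      positivity
    · rw [Finset.sum_congr rfl fun l _ => h0 l, ← Nat.cast_sum]
      exact_mod_cast hak i
    · rw [Finset.sum_congr rfl fun l _ => h0 l, ← Nat.cast_sum]
      exact_mod_cast h4
  | some m =>
    rw [ph_some] at hne
    have hm : 1 ≤ a m := by
      rcases Nat.eq_zero_or_pos (a m) with h | h
      · exact absurd (by rw [h]; exact Nat.cast_zero) hne
      · exact h
    have hsum : ∀ S : Finset (Fin n), ∑ l ∈ S, ((a l : ℝ) + sF n (some m) l) =
        ∑ l ∈ S, (a l : ℝ) - if m ∈ S then 1 else 0 := by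
      intro S
      have h5 := sum_sF a m S fun _ => (1 : ℝ)
      simpa using h5
    refine ⟨fun l => nonneg_sF a hm l, fun i => ?_, ?_⟩
    · rw [hsum]
      have h5 : ∑ l with κ l = i, (a l : ℝ) ≤ k i := by exact_mod_cast hak i
      split_ifs
      · linarith
      · linarith
    · rw [hsum, if_pos (Finset.mem_univ _)]
      have h5 : ∑ l, (a l : ℝ) ≤ ∑ i ∈ Finset.univ.image κ, (k i : ℝ) := by exact_mod_cast hle
      linarith

/-- weighted degrees, any number of parameters -/
theorem weight_param (hd : 2 ≤ d) (F : MvPolynomial (Fin (n + 2)) ℂ) (hF : F.IsHomogeneous d)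
    (hsm : ∀ z : Fin (n + 2) → ℂ, (∀ i, eval z (pderiv i F) = 0) → z = 0)
    (w : Fin N → ℕ) (hw : ∀ l, 1 ≤ w l) (k : ℕ)
    (G : Fin (n + 2) → MvPolynomial (Fin N) ℂ)
    (hG : ∀ i, ∀ a ∈ (G i).support, ∑ l, w l * a l ≤ k) (hFG : aeval G F = 0)
    (hdom : ∀ q (H : MvPolynomial (Fin (n + 2)) ℂ), H.IsHomogeneous q → aeval G H = 0 → F ∣ H) :
    ∃ (c : Fin N → ℂ) (g : Fin n → Fin N), Function.Injective g ∧ (∀ s, c (g s) = 0) ∧
      aeval (fun i => aeval (spc c g) (G i)) F = 0 ∧
      (∀ q (H : MvPolynomial (Fin (n + 2)) ℂ), H.IsHomogeneous q →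
        aeval (fun i => aeval (spc c g) (G i)) H = 0 → F ∣ H) ∧
      FiniteDimensional (ratioField fun i =>
        algebraMap (MvPolynomial (Fin n) ℂ) (FractionRing (MvPolynomial (Fin n) ℂ))
          (aeval (spc c g) (G i))) (FractionRing (MvPolynomial (Fin n) ℂ)) ∧
      Module.finrank (ratioField fun i =>
          algebraMap (MvPolynomial (Fin n) ℂ) (FractionRing (MvPolynomial (Fin n) ℂ))
            (aeval (spc c g) (G i))) (FractionRing (MvPolynomial (Fin n) ℂ)) *
            (d * (d - 1) ^ n) * ∏ s, w (g s) ≤ (n + 1) * (k - 1) ^ n := by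
  classical
  obtain ⟨c, g, hg, hc, h1, h2⟩ := spc_exists hd F hF hsm G hFG hdom
  obtain ⟨h3, h4⟩ := weight_bound hd F hF hsm (fun s => w (g s)) (fun s => hw (g s)) k
    (fun i => aeval (spc c g) (G i)) (fun i b hb => by
        obtain ⟨a, ha, rfl⟩ := supp_spc hg hc (G i) hb
        refine le_trans ?_ (hG i a ha)
        have h5 : ∑ s, w (g s) * pull g a s = ∑ l ∈ Finset.univ.image g, w l * a l := by
          rw [Finset.sum_image fun x _ y _ h => hg h]
          rfl
        rw [h5]
        exact Finset.sum_le_sum_of_subset (Finset.subset_univ _)) h1 h2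
  exact ⟨c, g, hg, hc, h1, h2, h3, h4⟩

/-- groups of variables, any number of parameters -/
theorem group_param (hn : 1 ≤ n) (hd : 2 ≤ d) (F : MvPolynomial (Fin (n + 2)) ℂ)
    (hF : F.IsHomogeneous d)
    (hsm : ∀ z : Fin (n + 2) → ℂ, (∀ i, eval z (pderiv i F) = 0) → z = 0)
    {r : ℕ} (κ : Fin N → Fin r) (k : Fin r → ℕ) (hk : ∀ i, 1 ≤ k i)
    (G : Fin (n + 2) → MvPolynomial (Fin N) ℂ)
    (hG : ∀ j, ∀ a ∈ (G j).support, ∀ i, ∑ l with κ l = i, a l ≤ k i) (hFG : aeval G F = 0)
    (hdom : ∀ q (H : MvPolynomial (Fin (n + 2)) ℂ), H.IsHomogeneous q → aeval G H = 0 → F ∣ H) :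
    ∃ (c : Fin N → ℂ) (g : Fin n → Fin N), Function.Injective g ∧ (∀ s, c (g s) = 0) ∧
      aeval (fun i => aeval (spc c g) (G i)) F = 0 ∧
      (∀ q (H : MvPolynomial (Fin (n + 2)) ℂ), H.IsHomogeneous q →
        aeval (fun i => aeval (spc c g) (G i)) H = 0 → F ∣ H) ∧
      FiniteDimensional (ratioField fun i =>
        algebraMap (MvPolynomial (Fin n) ℂ) (FractionRing (MvPolynomial (Fin n) ℂ))
          (aeval (spc c g) (G i))) (FractionRing (MvPolynomial (Fin n) ℂ)) ∧
      (Module.finrank (ratioField fun i =>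
          algebraMap (MvPolynomial (Fin n) ℂ) (FractionRing (MvPolynomial (Fin n) ℂ))
            (aeval (spc c g) (G i))) (FractionRing (MvPolynomial (Fin n) ℂ)) : ℝ) *
            (d * (d - 1) ^ n : ℕ) ≤ (n + 1).factorial *
              (volume (gpol (fun s => κ (g s)) k)).toReal := by
  classical
  obtain ⟨c, g, hg, hc, h1, h2⟩ := spc_exists hd F hF hsm G hFG hdom
  obtain ⟨h3, h4⟩ := group_bound hn hd F hF hsm (fun s => κ (g s)) k hk
    (fun i => aeval (spc c g) (G i)) (fun j b hb i => by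
        obtain ⟨a, ha, rfl⟩ := supp_spc hg hc (G j) hb
        refine le_trans ?_ (hG j a ha i)
        have h5 : ∑ s with κ (g s) = i, pull g a s =
            ∑ l ∈ (Finset.univ.filter fun s => κ (g s) = i).image g, a l := by
          rw [Finset.sum_image fun x _ y _ h => hg h]
          rfl
        rw [h5]
        refine Finset.sum_le_sum_of_subset ?_
        intro l hl
        obtain ⟨s, hs, rfl⟩ := Finset.mem_image.1 hl
        rw [Finset.mem_filter] at hs ⊢
        exact ⟨Finset.mem_univ _, hs.2⟩) h1 h2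
  exact ⟨c, g, hg, hc, h1, h2, h3, h4⟩

end

end Pool.Agent.X159.DP
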