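import Pool.Agent.X159.DP.Base
import Pool.Agent.Y196.Sp.Vol

/-! # Weighted degrees and groups of variables -/

set_option autoImplicit false

namespace Pool.Agent.X159.DP

open MvPolynomial Pool.Agent.TH314.PD Pool.Agent.Y196.Sp MeasureTheory Pointwise

noncomputable section

variable {n N d : ℕ}

/-- the simplex of weighted degree at most `r` -/
def wsimp (w : Fin n → ℕ) (r : ℝ) : Set (Fin n → ℝ) :=
  {x | (∀ l, 0 ≤ x l) ∧ ∑ l, w l * x l ≤ r}

theorem wsimp_convex (w : Fin n → ℕ) (r : ℝ) : Convex ℝ (wsimp w r) := by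
  intro x hx y hy a b ha hb hab
  refine ⟨fun l => ?_, ?_⟩
  · have := hx.1 l
    have := hy.1 l
    simp only [Pi.add_apply, Pi.smul_apply, smul_eq_mul]
    positivity
  · have h1 : ∑ l, (w l : ℝ) * (a • x + b • y) l =
        a * ∑ l, w l * x l + b * ∑ l, w l * y l := by
      rw [Finset.mul_sum, Finset.mul_sum, ← Finset.sum_add_distrib]
      refine Finset.sum_congr rfl fun l _ => ?_
      simp only [Pi.add_apply, Pi.smul_apply, smul_eq_mul]
      ring
    rw [h1]
    have h2 := mul_le_mul_of_nonneg_left hx.2 ha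
    have h3 := mul_le_mul_of_nonneg_left hy.2 hb
    have h4 : a * r + b * r = r := by rw [← add_mul, hab, one_mul]
    linarith

theorem wsimp_compact {w : Fin n → ℕ} (hw : ∀ l, 1 ≤ w l) (r : ℝ) : IsCompact (wsimp w r) := by
  refine Metric.isCompact_of_isClosed_isBounded ?_ ?_
  · have h1 : wsimp w r = (⋂ l, {x : Fin n → ℝ | 0 ≤ x l}) ∩
        {x : Fin n → ℝ | ∑ l, (w l : ℝ) * x l ≤ r} := by
      ext x
      simp [wsimp]
    rw [h1]
    refine IsClosed.inter (isClosed_iInter fun l => isClosed_le continuous_const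
      (continuous_apply l)) (isClosed_le ?_ continuous_const)
    exact continuous_finsetSum _ fun l _ => continuous_const.mul (continuous_apply l)
  · refine (isCompact_Icc (a := (0 : Fin n → ℝ)) (b := fun _ => r)).isBounded.subset ?_
    intro x hx
    refine ⟨fun l => hx.1 l, fun l => ?_⟩
    have h1 : x l ≤ w l * x l := by
      have h2 : (1 : ℝ) ≤ w l := by exact_mod_cast hw l
      nlinarith [hx.1 l]
    have h3 : (w l : ℝ) * x l ≤ ∑ l, w l * x l :=
      Finset.single_le_sum (f := fun l => (w l : ℝ) * x l)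
        (fun l _ => mul_nonneg (Nat.cast_nonneg _) (hx.1 l)) (Finset.mem_univ l)
    exact (h1.trans h3).trans hx.2

theorem wsimp_vol {w : Fin n → ℕ} (hw : ∀ l, 1 ≤ w l) {r : ℝ} (hr : 0 ≤ r) :
    (volume (wsimp w r)).toReal = r ^ n / (n.factorial * ∏ l, (w l : ℝ)) := by
  classical
  have hw0 : ∀ l, (w l : ℝ) ≠ 0 := fun l => by
    have := hw l
    positivity
  let D : Matrix (Fin n) (Fin n) ℝ := Matrix.diagonal fun l => (w l : ℝ)
  have hdet : D.det = ∏ l, (w l : ℝ) := Matrix.det_diagonal
  have hdet0 : D.det ≠ 0 := by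
    rw [hdet]
    exact Finset.prod_ne_zero_iff.2 fun l _ => hw0 l
  have h1 : wsimp w r = (Matrix.toLin' D) ⁻¹' {c : Fin n → ℝ | (∀ i, 0 ≤ c i) ∧ ∑ i, c i ≤ r} := by
    ext x
    have h2 : ∀ l, (Matrix.toLin' D) x l = w l * x l := fun l => by
      rw [Matrix.toLin'_apply, Matrix.mulVec_diagonal]
    constructor
    · intro hx
      refine ⟨fun l => ?_, ?_⟩
      · rw [h2]
        exact mul_nonneg (Nat.cast_nonneg _) (hx.1 l)
      · rw [Finset.sum_congr rfl fun l _ => h2 l]
        exact hx.2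
    · rintro ⟨h3, h4⟩
      refine ⟨fun l => ?_, ?_⟩
      · have h5 := h3 l
        rw [h2] at h5
        have h6 : (0 : ℝ) < w l := by
          have := hw l
          positivity
        exact nonneg_of_mul_nonneg_right h5 h6
      · rw [Finset.sum_congr rfl fun l _ => h2 l] at h4
        exact h4
  have h2 : LinearMap.det (Matrix.toLin' D) = D.det := LinearMap.det_toLin' D
  rw [h1, MeasureTheory.Measure.addHaar_preimage_linearMap volume (by rw [h2]; exact hdet0),
    vol_closed n r hr, ENNReal.toReal_mul, ENNReal.toReal_ofReal (abs_nonneg _),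
    ENNReal.toReal_ofReal (by positivity), h2, hdet, abs_of_pos (by
      have : ∀ l, (0 : ℝ) < w l := fun l => by
        have := hw l
        positivity
      exact inv_pos.2 (Finset.prod_pos fun l _ => this l))]
  field_simp

/-- the polytope of the derivatives of multihomogeneous forms: the variable number `l` belongs to
the group `κ l` -/
def gpol {r : ℕ} (κ : Fin n → Fin r) (k : Fin r → ℕ) : Set (Fin n → ℝ) :=
  {x | (∀ l, 0 ≤ x l) ∧ (∀ i, ∑ l with κ l = i, x l ≤ k i) ∧
    ∑ l, x l + 1 ≤ ∑ i ∈ Finset.univ.image κ, (k i : ℝ)}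

theorem gpol_convex {r : ℕ} (κ : Fin n → Fin r) (k : Fin r → ℕ) : Convex ℝ (gpol κ k) := by
  intro x hx y hy a b ha hb hab
  have hlin : ∀ S : Finset (Fin n), ∑ l ∈ S, (a • x + b • y) l =
      a * ∑ l ∈ S, x l + b * ∑ l ∈ S, y l := by
    intro S
    rw [Finset.mul_sum, Finset.mul_sum, ← Finset.sum_add_distrib]
    refine Finset.sum_congr rfl fun l _ => ?_
    simp only [Pi.add_apply, Pi.smul_apply, smul_eq_mul]
  refine ⟨fun l => ?_, fun i => ?_, ?_⟩
  · have := hx.1 l
    have := hy.1 l
    simp only [Pi.add_apply, Pi.smul_apply, smul_eq_mul]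
    positivity
  · rw [hlin]
    have h2 := mul_le_mul_of_nonneg_left (hx.2.1 i) ha
    have h3 := mul_le_mul_of_nonneg_left (hy.2.1 i) hb
    have h4 : a * (k i : ℝ) + b * k i = k i := by rw [← add_mul, hab, one_mul]
    linarith
  · rw [hlin]
    have h2 := mul_le_mul_of_nonneg_left hx.2.2 ha
    have h3 := mul_le_mul_of_nonneg_left hy.2.2 hb
    have h4 : a * (∑ i ∈ Finset.univ.image κ, (k i : ℝ)) +
        b * (∑ i ∈ Finset.univ.image κ, (k i : ℝ)) = ∑ i ∈ Finset.univ.image κ, (k i : ℝ) := by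
      rw [← add_mul, hab, one_mul]
    nlinarith

theorem gpol_compact {r : ℕ} (κ : Fin n → Fin r) (k : Fin r → ℕ) : IsCompact (gpol κ k) := by
  refine Metric.isCompact_of_isClosed_isBounded ?_ ?_
  · have h1 : gpol κ k = (⋂ l, {x : Fin n → ℝ | 0 ≤ x l}) ∩
        ((⋂ i, {x : Fin n → ℝ | ∑ l with κ l = i, x l ≤ (k i : ℝ)}) ∩
        {x : Fin n → ℝ | ∑ l, x l + 1 ≤ ∑ i ∈ Finset.univ.image κ, (k i : ℝ)}) := by
      ext x
      simp [gpol]
    rw [h1]
    refine IsClosed.inter (isClosed_iInter fun l => isClosed_le continuous_const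
      (continuous_apply l)) (IsClosed.inter (isClosed_iInter fun i => isClosed_le ?_
        continuous_const) (isClosed_le ?_ continuous_const))
    · exact continuous_finsetSum _ fun l _ => continuous_apply l
    · exact (continuous_finsetSum _ fun l _ => continuous_apply l).add continuous_const
  · refine (isCompact_Icc (a := (0 : Fin n → ℝ)) (b := fun l => (k (κ l) : ℝ))).isBounded.subset ?_
    intro x hx
    refine ⟨fun l => hx.1 l, fun l => ?_⟩
    exact (Finset.single_le_sum (f := fun l => x l) (fun l _ => hx.1 l)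
      (by rw [Finset.mem_filter]; exact ⟨Finset.mem_univ l, rfl⟩)).trans (hx.2.1 (κ l))

end

end Pool.Agent.X159.DP
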